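import Mathlib

/-!
# The integer `33` is not the sum of four positive integers whose product is `p ^ 3 - p`, `p` prime

This refutes the assertion that every integer `n > 8` has such a representation.
-/

set_option autoImplicit false

namespace Pool.Agent.Results.MP_ae8880_nt.ThirtyThree


lemma key : ((List.range 33).all fun a => (List.range 33).all fun b => (List.range 33).all fun c =>
    [2, 3, 5, 7, 11, 13, 17].all fun p => !(a * b * c * (33 - a - b - c) + p == p ^ 3)) = true := by
  decide +kernel

/-- There is an integer `n > 8` (namely `n = 33`) such that for every prime `p` and all positive integers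
`a, b, c, d` with `a + b + c + d = n` one has `a b c d ≠ p ^ 3 - p`. -/
theorem result : ∃ n : ℕ, 8 < n ∧ ∀ p : ℕ, p.Prime → ∀ a b c d : ℕ, 0 < a → 0 < b → 0 < c → 0 < d →
    a + b + c + d = n → ((a * b * c * d : ℕ) : ℤ) ≠ (p : ℤ) ^ 3 - p := by
  refine ⟨33, by norm_num, ?_⟩
  intro p hp a b c d ha hb hc hd hs h
  have h1 : a * b * c * d + p = p ^ 3 := by
    have : ((a * b * c * d + p : ℕ) : ℤ) = ((p ^ 3 : ℕ) : ℤ) := by
      push_cast
      push_cast at h
      linarith
    exact_mod_cast this
  have hd' : d = 33 - a - b - c := by omega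
  have hlt : p < 18 := by
    by_contra hcon
    push Not at hcon
    -- 256 a b c d ≤ (a + b + c + d) ^ 4
    have e1 : 4 * (a * b) ≤ (a + b) ^ 2 := by
      zify
      nlinarith [sq_nonneg ((a : ℤ) - b)]
    have e2 : 4 * (c * d) ≤ (c + d) ^ 2 := by
      zify
      nlinarith [sq_nonneg ((c : ℤ) - d)]
    have e3 : 4 * ((a + b) * (c + d)) ≤ 33 ^ 2 := by
      have : a + b + (c + d) = 33 := by omega
      rw [← this]
      zify
      nlinarith [sq_nonneg (((a : ℤ) + b) - (c + d))]
    have e4 : 16 * (a * b * c * d) ≤ ((a + b) * (c + d)) ^ 2 := by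
      calc 16 * (a * b * c * d) = (4 * (a * b)) * (4 * (c * d)) := by ring
        _ ≤ (a + b) ^ 2 * (c + d) ^ 2 := Nat.mul_le_mul e1 e2
        _ = _ := by ring
    have e5 : (a + b) * (c + d) ≤ 272 := by omega
    have e6 : 16 * (a * b * c * d) ≤ 272 ^ 2 := e4.trans (Nat.pow_le_pow_left e5 2)
    have e7 : a * b * c * d ≤ 4624 := by omega
    have e8 : 18 ^ 2 * p ≤ p ^ 3 := by
      calc 18 ^ 2 * p ≤ p ^ 2 * p := Nat.mul_le_mul_right p (Nat.pow_le_pow_left hcon 2)
        _ = p ^ 3 := by ring
    omega
  have hp' : p ∈ [2, 3, 5, 7, 11, 13, 17] := by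
    have h0 := hp.two_le
    interval_cases p <;> first | decide | (exfalso; revert hp; norm_num)
  have hk := key
  simp only [List.all_eq_true, List.mem_range] at hk
  have hk2 := hk a (by omega) b (by omega) c (by omega) p hp'
  rw [← hd', h1] at hk2
  simp at hk2

end Pool.Agent.Results.MP_ae8880_nt.ThirtyThree
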